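import Pool.Agent.Helper360.Dist.Final

set_option maxHeartbeats 4000000

open MeasureTheory

namespace Pool.Agent.Results.MP_79b32e_an.NoDistanceConstant

section Abstract

variable {H : Type*} [NormedAddCommGroup H] [InnerProductSpace ℂ H] [CompleteSpace H]

/-- `L` is a commutative subspace lattice on the Hilbert space `H`.  Closed subspaces are identified
with their orthogonal projections: `L` is a set of pairwise commuting orthogonal projections on `H`
which contains `0` and `1`, is closed under meets (`P * Q`) and joins (`P + Q - P * Q`), and is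
closed in the strong operator topology. -/
structure IsCSL (L : Set (H →L[ℂ] H)) : Prop where
  proj : ∀ P ∈ L, IsStarProjection P
  comm : ∀ P ∈ L, ∀ Q ∈ L, P * Q = Q * P
  zero_mem : (0 : H →L[ℂ] H) ∈ L
  one_mem : (1 : H →L[ℂ] H) ∈ L
  inf_mem : ∀ P ∈ L, ∀ Q ∈ L, P * Q ∈ L
  sup_mem : ∀ P ∈ L, ∀ Q ∈ L, P + Q - P * Q ∈ L
  sot_closed : ∀ T : H →L[ℂ] H,
    (∀ (s : Finset H) (ε : ℝ), 0 < ε → ∃ P ∈ L, ∀ x ∈ s, ‖T x - P x‖ < ε) → T ∈ L

/-- The CSL generated by a set `G` of projections: the intersection of all CSLs which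
contain `G`. -/
def generatedCSL (G : Set (H →L[ℂ] H)) : Set (H →L[ℂ] H) :=
  {P | ∀ L : Set (H →L[ℂ] H), IsCSL L → G ⊆ L → P ∈ L}

/-- `Alg L = {T : TP = PTP for all P in L}`. -/
def Alg (L : Set (H →L[ℂ] H)) : Set (H →L[ℂ] H) := {T | ∀ P ∈ L, T * P = P * T * P}

/-- `Lat A`: the orthogonal projections onto the closed invariant subspaces of `A`. -/
def Lat (A : Set (H →L[ℂ] H)) : Set (H →L[ℂ] H) :=
  {P | IsStarProjection P ∧ ∀ T ∈ A, ∀ x : H, P x = x → P (T x) = T x}

/-- `A` has a distance constant: there is a real number `K` such that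
`dist(T, A) ≤ K sup {‖(1 - P) T P‖ : P ∈ Lat A}` for all `T` in `B(H)`. -/
def HasDistanceConstant (A : Set (H →L[ℂ] H)) : Prop :=
  ∃ K : ℝ, ∀ T : H →L[ℂ] H,
    Metric.infDist T A ≤ K * sSup {r : ℝ | ∃ P ∈ Lat A, r = ‖(1 - P) * T * P‖}

end Abstract

/-- Lebesgue measure on `[0,1]`. -/
noncomputable def leb : Measure ℝ := volume.restrict (Set.Icc 0 1)

/-- The Hilbert space `L²([0,1]²) = L²[0,1] ⊗ L²[0,1]`. -/
abbrev L2Square : Type := Lp ℂ 2 (leb.prod leb)

/-- The nest `{N_t ⊗ I : 0 ≤ t ≤ 1}`, where `N` is the Volterra nest: the orthogonal projections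
onto the spaces `{f : f(x,y) = 0 for almost all (x,y) with x ≥ t}`. -/
def volterraFst : Set (L2Square →L[ℂ] L2Square) :=
  {P | IsStarProjection P ∧ ∃ t ∈ Set.Icc (0 : ℝ) 1,
    ∀ f : L2Square, P f = f ↔ ∀ᵐ z ∂(leb.prod leb), t ≤ z.1 → f z = 0}

/-- The nest `{I ⊗ N_t : 0 ≤ t ≤ 1}`, where `N` is the Volterra nest: the orthogonal projections
onto the spaces `{f : f(x,y) = 0 for almost all (x,y) with y ≥ t}`. -/
def volterraSnd : Set (L2Square →L[ℂ] L2Square) :=
  {P | IsStarProjection P ∧ ∃ t ∈ Set.Icc (0 : ℝ) 1,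
    ∀ f : L2Square, P f = f ↔ ∀ᵐ z ∂(leb.prod leb), t ≤ z.2 → f z = 0}

/-- `N ⊗ N`: the CSL generated by the two commuting nests `{N_t ⊗ I}` and `{I ⊗ N_t}`. -/
def volterraSquare : Set (L2Square →L[ℂ] L2Square) :=
  generatedCSL (volterraFst ∪ volterraSnd)

/-! ### translation to the helper files -/

theorem isCSL_iff {H : Type*} [NormedAddCommGroup H] [InnerProductSpace ℂ H] [CompleteSpace H]
    (L : Set (H →L[ℂ] H)) : IsCSL L ↔ DC.IsCSL L :=
  ⟨fun h => ⟨h.proj, h.comm, h.zero_mem, h.one_mem, h.inf_mem, h.sup_mem, h.sot_closed⟩,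
   fun h => ⟨h.proj, h.comm, h.zero_mem, h.one_mem, h.inf_mem, h.sup_mem, h.sot_closed⟩⟩

theorem generated_eq {H : Type*} [NormedAddCommGroup H] [InnerProductSpace ℂ H] [CompleteSpace H]
    (G : Set (H →L[ℂ] H)) : generatedCSL G = DC.generated G := by
  ext P
  constructor
  · intro h L hL hG
    exact h L ((isCSL_iff L).mpr hL) hG
  · intro h L hL hG
    exact h L ((isCSL_iff L).mp hL) hG

theorem Lat_eq {H : Type*} [NormedAddCommGroup H] [InnerProductSpace ℂ H] [CompleteSpace H]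
    (A : Set (H →L[ℂ] H)) : Lat A = DC.LatOf A := by
  ext P
  constructor
  · rintro ⟨hP, h⟩
    refine ⟨hP, fun T hT => ?_⟩
    ext x
    have h1 : P (P x) = P x := by
      have := congrArg (fun Z : H →L[ℂ] H => Z x) hP.isIdempotentElem
      exact this
    exact (h T hT (P x) h1).symm
  · rintro ⟨hP, h⟩
    refine ⟨hP, fun T hT x hx => ?_⟩
    have h1 := congrArg (fun Z : H →L[ℂ] H => Z x) (h T hT)
    have h2 : T (P x) = P (T (P x)) := h1
    rw [hx] at h2
    exact h2.symm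

theorem hasDistanceConstant_iff {H : Type*} [NormedAddCommGroup H] [InnerProductSpace ℂ H]
    [CompleteSpace H] (A : Set (H →L[ℂ] H)) :
    HasDistanceConstant A ↔ DC.HasDistanceConstant A := by
  unfold HasDistanceConstant DC.HasDistanceConstant
  rw [Lat_eq]

theorem leb_eq : leb = DC.mu01 := rfl

theorem nests : ∃ E F : ℝ → (L2Square →L[ℂ] L2Square), DC.TwoNests E F ∧
    volterraFst ∪ volterraSnd = DC.genSet E F := by
  obtain ⟨E, F, h, hE⟩ := DC.l2_nests
  refine ⟨E, F, h, ?_⟩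
  refine Eq.trans ?_ hE
  ext P
  constructor
  · rintro (⟨hP, t, ⟨h0, h1⟩, h⟩ | ⟨hP, t, ⟨h0, h1⟩, h⟩)
    · exact ⟨hP, t, h0, h1, Or.inl h⟩
    · exact ⟨hP, t, h0, h1, Or.inr h⟩
  · rintro ⟨hP, t, h0, h1, h | h⟩
    · exact Or.inl ⟨hP, t, ⟨h0, h1⟩, h⟩
    · exact Or.inr ⟨hP, t, ⟨h0, h1⟩, h⟩

/-- **The algebra `Alg(N ⊗ N)` has no distance constant.** -/
theorem result : IsCSL volterraSquare ∧ ¬ HasDistanceConstant (Alg volterraSquare) := by
  obtain ⟨E, F, h, hE⟩ := nests
  have h1 : volterraSquare = DC.generated (DC.genSet E F) := by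
    unfold volterraSquare
    rw [hE, generated_eq]
  rw [h1]
  constructor
  · rw [isCSL_iff]
    exact (DC.generated_star h).1
  · rw [hasDistanceConstant_iff]
    exact DC.no_constant h

end Pool.Agent.Results.MP_79b32e_an.NoDistanceConstant
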